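import Mathlib
import Pool.Agent.H659Z.HDNonIso

set_option autoImplicit false

namespace Pool.Agent.Results.MP_340332_ag.ATypeBNonCancel

open Polynomial Pool.Agent.H659Z.HD

universe u

/-- There is an irreducible affine variety `Y` of type B, with coordinate ring `A`, and an
irreducible affine variety `Z`, with coordinate ring `B`, whose cylinders are isomorphic while
`Y` and `Z` are not isomorphic. -/
theorem result (K : Type u) [Field K] [IsAlgClosed K] [CharZero K] :
    ∃ (A B : Type u) (_ : CommRing A) (_ : CommRing B) (_ : Algebra K A) (_ : Algebra K B),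
      IsDomain A ∧ IsDomain B ∧ Algebra.FiniteType K A ∧ Algebra.FiniteType K B ∧
      TypeB K A ∧ Nonempty (A[X] ≃ₐ[K] B[X]) ∧ IsEmpty (A ≃ₐ[K] B) :=
  ⟨O K 0, O K 1, inferInstance, inferInstance, inferInstance, inferInstance, inferInstance,
    inferInstance, finiteType, finiteType, typeB, cylinder, not_iso⟩

end Pool.Agent.Results.MP_340332_ag.ATypeBNonCancel
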